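import Mathlib

set_option autoImplicit false

/-!
# Green function level sets under circular symmetrisation

The inclusion `(D_lam)^* ⊆ (D^*)_lam` fails already when `D` is a disc: for
`D = {|z + 1/2| < 1}`, `D^* = {|z - 1/2| < 1}` and the pole `1/4`, the level set
`{g_D > log (13/10)}` contains the whole circle `|z| = 3/8`, but `g_{D^*}(-3/8) = log (5/4)`.
-/

namespace Pool.Agent.Results.MP_d9eea5_an.DiscCounterexample

open InnerProductSpace Metric Set Filter Topology MeasureTheory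

/-- The angular measure `ℓ(r)` of `E ∩ {|z| = r}` (so that `r ℓ(r)` is the total length of
`E ∩ {|z| = r}`). -/
noncomputable def angularLength (E : Set ℂ) (r : ℝ) : ℝ :=
  (volume {θ : ℝ | θ ∈ Ioc (-Real.pi) Real.pi ∧
    (r : ℂ) * Complex.exp ((θ : ℂ) * Complex.I) ∈ E}).toReal

/-- The circular symmetrisation `E^*` of `E`: `0 ∈ E^*` iff `0 ∈ E`; a circle `|z| = r` contained
in `E` is contained in `E^*`; a circle that does not meet `E` does not meet `E^*`; otherwise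
`E^* ∩ {|z| = r}` is the arc `|arg z| < ℓ(r) / 2`. -/
def circSymm (E : Set ℂ) : Set ℂ :=
  {z | (z = 0 ∧ (0 : ℂ) ∈ E) ∨
    (z ≠ 0 ∧ sphere (0 : ℂ) ‖z‖ ⊆ E) ∨
    (z ≠ 0 ∧ ¬ sphere (0 : ℂ) ‖z‖ ⊆ E ∧ (sphere (0 : ℂ) ‖z‖ ∩ E).Nonempty ∧
      |Complex.arg z| < angularLength E ‖z‖ / 2)}

/-- `h` is a positive harmonic function on `D`. -/
def PosHarmonic (D : Set ℂ) (h : ℂ → ℝ) : Prop := HarmonicOnNhd h D ∧ ∀ z ∈ D, 0 < h z

/-- `g(z) + log |z - a|` extends to a function harmonic at `a`. -/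
def HasLogPole (a : ℂ) (g : ℂ → ℝ) : Prop :=
  ∃ k : ℂ → ℝ, HarmonicAt k a ∧ ∀ᶠ z in 𝓝[≠] a, g z = k z - Real.log ‖z - a‖

/-- `g` is the Green function of `D` with pole `a`: the smallest positive harmonic function on
`D \ {a}` with a logarithmic pole at `a`. -/
def IsGreenFn (D : Set ℂ) (a : ℂ) (g : ℂ → ℝ) : Prop :=
  PosHarmonic (D \ {a}) g ∧ HasLogPole a g ∧
    ∀ v, PosHarmonic (D \ {a}) v → HasLogPole a v → ∀ z ∈ D \ {a}, g z ≤ v z

/-- The level set `{z ∈ D : g(z) > lam}`, where `g` is the Green function of `D` with pole `a`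
(as `g = +∞` at the pole, the pole belongs to the set). -/
def levelSet (D : Set ℂ) (a : ℂ) (g : ℂ → ℝ) (lam : ℝ) : Set ℂ := {z | z ∈ D ∧ (z = a ∨ lam < g z)}

/-! ### The Green function of a disc of radius one -/

/-- The Green function of the disc `|z - c| < 1` with pole `a`. -/
noncomputable def gr (c a z : ℂ) : ℝ :=
  Real.log (‖1 - (starRingEnd ℂ) (a - c) * (z - c)‖ / ‖z - a‖)

theorem norm_ident (y z : ℂ) :
    ‖1 - (starRingEnd ℂ) y * z‖ ^ 2 = ‖z - y‖ ^ 2 + (1 - ‖y‖ ^ 2) * (1 - ‖z‖ ^ 2) := by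
  rw [Complex.sq_norm, Complex.sq_norm, Complex.sq_norm, Complex.sq_norm, Complex.normSq_apply,
    Complex.normSq_apply, Complex.normSq_apply, Complex.normSq_apply]
  simp
  ring

theorem one_sub_ne {y z : ℂ} (hy : ‖y‖ < 1) (hz : ‖z‖ < 1) : 1 - (starRingEnd ℂ) y * z ≠ 0 := by
  intro h
  have h1 : (starRingEnd ℂ) y * z = 1 := (sub_eq_zero.mp h).symm
  have h2 : ‖(starRingEnd ℂ) y * z‖ = 1 := by rw [h1]; simp
  rw [norm_mul, RCLike.norm_conj] at h2
  nlinarith [norm_nonneg y, norm_nonneg z]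

theorem gr_eq {c a z : ℂ} (ha : ‖a - c‖ < 1) (hz : ‖z - c‖ < 1) (hne : z ≠ a) :
    gr c a z = Real.log ‖1 - (starRingEnd ℂ) (a - c) * (z - c)‖ - Real.log ‖z - a‖ := by
  unfold gr
  rw [Real.log_div]
  · exact (norm_pos_iff.mpr (one_sub_ne ha hz)).ne'
  · exact (norm_pos_iff.mpr (sub_ne_zero.mpr hne)).ne'

theorem harmonicAt_k {c a z : ℂ} (ha : ‖a - c‖ < 1) (hz : ‖z - c‖ < 1) :
    HarmonicAt (fun z => Real.log ‖1 - (starRingEnd ℂ) (a - c) * (z - c)‖) z := by
  apply AnalyticAt.harmonicAt_log_norm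
  · fun_prop
  · exact one_sub_ne ha hz

theorem harmonicAt_gr {c a z : ℂ} (ha : ‖a - c‖ < 1) (hz : ‖z - c‖ < 1) (hne : z ≠ a) :
    HarmonicAt (gr c a) z := by
  have h2 : HarmonicAt (fun z => Real.log ‖z - a‖) z := by
    apply AnalyticAt.harmonicAt_log_norm
    · fun_prop
    · exact sub_ne_zero.mpr hne
  have h3 := (harmonicAt_k ha hz).sub h2
  rw [harmonicAt_congr_nhds (f₂ := (fun z => Real.log ‖1 - (starRingEnd ℂ) (a - c) * (z - c)‖) -
    fun z => Real.log ‖z - a‖)]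
  · exact h3
  · have hzb : z ∈ ball c 1 := by simpa [dist_eq_norm] using hz
    filter_upwards [isOpen_ball.mem_nhds hzb, isOpen_ne.mem_nhds hne] with x hx1 hx2
    have hx3 : ‖x - c‖ < 1 := by simpa [dist_eq_norm] using hx1
    rw [gr_eq ha hx3 hx2]
    rfl

/-- `gr` in the form `(1/2) log (1 + P)` -/
theorem gr_half_log {c a z : ℂ} (hne : z ≠ a) :
    gr c a z = Real.log (1 + (1 - ‖a - c‖ ^ 2) * (1 - ‖z - c‖ ^ 2) / ‖z - a‖ ^ 2) / 2 := by
  have hB : 0 < ‖z - a‖ := norm_pos_iff.mpr (sub_ne_zero.mpr hne)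
  have h0 := norm_ident (a - c) (z - c)
  have h2 : z - c - (a - c) = z - a := by ring
  rw [h2] at h0
  have h1 : 1 + (1 - ‖a - c‖ ^ 2) * (1 - ‖z - c‖ ^ 2) / ‖z - a‖ ^ 2 =
      (‖1 - (starRingEnd ℂ) (a - c) * (z - c)‖ / ‖z - a‖) ^ 2 := by
    rw [div_pow, h0]
    field_simp
  rw [h1, Real.log_pow, gr]
  push_cast
  ring

theorem gr_pos {c a z : ℂ} (ha : ‖a - c‖ < 1) (hz : ‖z - c‖ < 1) (hne : z ≠ a) :
    0 < gr c a z := by
  have hB : 0 < ‖z - a‖ := norm_pos_iff.mpr (sub_ne_zero.mpr hne)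
  rw [gr_half_log hne]
  have h1 : 0 < 1 - ‖a - c‖ ^ 2 := by nlinarith [norm_nonneg (a - c)]
  have h2 : 0 < 1 - ‖z - c‖ ^ 2 := by nlinarith [norm_nonneg (z - c)]
  have h3 : 0 < (1 - ‖a - c‖ ^ 2) * (1 - ‖z - c‖ ^ 2) / ‖z - a‖ ^ 2 := by positivity
  have := Real.log_pos (show 1 < 1 + (1 - ‖a - c‖ ^ 2) * (1 - ‖z - c‖ ^ 2) / ‖z - a‖ ^ 2 by
    linarith)
  linarith

theorem gr_le {c a z : ℂ} (ha : ‖a - c‖ < 1) (hz : ‖z - c‖ < 1)
    (hza : (1 + ‖a - c‖) / 2 ≤ ‖z - c‖) :
    gr c a z ≤ (1 - ‖z - c‖) / ((1 - ‖a - c‖) / 2) ^ 2 := by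
  have hne : z ≠ a := by
    rintro rfl
    linarith
  have hB : 0 < ‖z - a‖ := norm_pos_iff.mpr (sub_ne_zero.mpr hne)
  rw [gr_half_log hne]
  have h1 : 0 < 1 - ‖a - c‖ ^ 2 := by nlinarith [norm_nonneg (a - c)]
  have h2 : 0 < 1 - ‖z - c‖ ^ 2 := by nlinarith [norm_nonneg (z - c)]
  have h3 : 0 < (1 - ‖a - c‖ ^ 2) * (1 - ‖z - c‖ ^ 2) / ‖z - a‖ ^ 2 := by positivity
  have h4 := Real.log_le_sub_one_of_pos
    (show 0 < 1 + (1 - ‖a - c‖ ^ 2) * (1 - ‖z - c‖ ^ 2) / ‖z - a‖ ^ 2 by linarith)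
  have h5 : (1 - ‖a - c‖) / 2 ≤ ‖z - a‖ := by
    have := norm_sub_norm_le (z - c) (a - c)
    have h2 : z - c - (a - c) = z - a := by ring
    rw [h2] at this
    linarith
  have h6 : (1 - ‖a - c‖ ^ 2) * (1 - ‖z - c‖ ^ 2) / ‖z - a‖ ^ 2 ≤
      (2 * (1 - ‖z - c‖)) / ((1 - ‖a - c‖) / 2) ^ 2 := by
    have h7 : 0 < (1 - ‖a - c‖) / 2 := by linarith
    apply div_le_div₀
    · nlinarith
    · nlinarith [norm_nonneg (a - c), norm_nonneg (z - c)]
    · positivity
    · nlinarith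
  have h8 : (2 * (1 - ‖z - c‖)) / ((1 - ‖a - c‖) / 2) ^ 2 =
    2 * ((1 - ‖z - c‖) / ((1 - ‖a - c‖) / 2) ^ 2) := by ring
  rw [h8] at h6
  linarith

theorem hasLogPole_gr {c a : ℂ} (ha : ‖a - c‖ < 1) : HasLogPole a (gr c a) := by
  refine ⟨fun z => Real.log ‖1 - (starRingEnd ℂ) (a - c) * (z - c)‖, harmonicAt_k ha ha, ?_⟩
  have hab : a ∈ ball c 1 := by simpa [dist_eq_norm] using ha
  filter_upwards [mem_nhdsWithin_of_mem_nhds (isOpen_ball.mem_nhds hab), self_mem_nhdsWithin]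
    with z hz1 hz2
  have hz3 : ‖z - c‖ < 1 := by simpa [dist_eq_norm] using hz1
  exact gr_eq ha hz3 hz2

/-- minimum principle in the disc -/
theorem min_principle (w : ℂ → ℝ) (c : ℂ) (hw : HarmonicOnNhd w (ball c 1))
    (hb : ∀ ε > 0, ∃ r < 1, ∀ z, r < ‖z - c‖ → ‖z - c‖ < 1 → -ε ≤ w z) :
    ∀ z ∈ ball c 1, 0 ≤ w z := by
  intro z hz
  have hz' : ‖z - c‖ < 1 := by simpa [dist_eq_norm] using hz
  obtain ⟨F, hF, hFh⟩ := hw.exists_analyticOnNhd_ball_re_eq
  have hFd : DifferentiableOn ℂ F (ball c 1) := hF.differentiableOn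
  apply le_of_forall_pos_le_add
  intro ε hε
  obtain ⟨r, hr1, hr⟩ := hb ε hε
  obtain ⟨s, hs1, hs2⟩ := exists_between (max_lt hr1 hz')
  have hsr : r < s := lt_of_le_of_lt (le_max_left _ _) hs1
  have hsz : ‖z - c‖ < s := lt_of_le_of_lt (le_max_right _ _) hs1
  have hs0 : 0 < s := lt_of_le_of_lt (norm_nonneg _) hsz
  set E : ℂ → ℂ := fun w => Complex.exp (-F w) with hE
  have hEd : DifferentiableOn ℂ E (ball c 1) := hFd.neg.cexp
  have hnE : ∀ x ∈ ball c 1, ‖E x‖ = Real.exp (-w x) := by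
    intro x hx
    rw [hE]
    simp only
    rw [Complex.norm_exp]
    congr 1
    rw [Complex.neg_re]
    have := hFh hx
    simp only at this
    rw [this]
  have hEc : DiffContOnCl ℂ E (ball c s) := by
    apply DifferentiableOn.diffContOnCl
    apply hEd.mono
    rw [closure_ball c hs0.ne']
    exact closedBall_subset_ball hs2
  have h1 : ‖E z‖ ≤ Real.exp ε := by
    apply Complex.norm_le_of_forall_mem_frontier_norm_le isBounded_ball hEc
    · intro x hx
      rw [frontier_ball c hs0.ne', mem_sphere, dist_eq_norm] at hx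
      have hx1 : x ∈ ball c 1 := by rw [mem_ball, dist_eq_norm, hx]; exact hs2
      rw [hnE x hx1]
      apply Real.exp_le_exp.mpr
      have := hr x (by rw [hx]; exact hsr) (by rw [hx]; exact hs2)
      linarith
    · apply subset_closure
      rw [mem_ball, dist_eq_norm]
      exact hsz
  rw [hnE z hz] at h1
  have := Real.exp_le_exp.mp h1
  linarith

theorem isGreenFn_gr {c a : ℂ} (ha : a ∈ ball c 1) : IsGreenFn (ball c 1) a (gr c a) := by
  have ha' : ‖a - c‖ < 1 := by simpa [dist_eq_norm] using ha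
  have hmem : ∀ {z : ℂ}, z ∈ ball c 1 → ‖z - c‖ < 1 := by
    intro z hz
    simpa [dist_eq_norm] using hz
  refine ⟨⟨?_, ?_⟩, hasLogPole_gr ha', ?_⟩
  · intro z hz
    exact harmonicAt_gr ha' (hmem hz.1) hz.2
  · intro z hz
    exact gr_pos ha' (hmem hz.1) hz.2
  · intro v hv hvp
    obtain ⟨kv, hkv, hkve⟩ := hvp
    obtain ⟨k, hk, hke⟩ := hasLogPole_gr ha'
    set w : ℂ → ℝ := fun z => if z = a then kv a - k a else v z - gr c a z with hw
    have hwne : ∀ z, z ≠ a → w z = v z - gr c a z := fun z hz => if_neg hz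
    have hwh : HarmonicOnNhd w (ball c 1) := by
      intro z hz
      by_cases hzy : z = a
      · subst hzy
        rw [harmonicAt_congr_nhds (f₂ := kv - k)]
        · exact hkv.sub hk
        · have h1 : ∀ᶠ x in 𝓝[≠] z, w x = (kv - k) x := by
            filter_upwards [hkve, hke, self_mem_nhdsWithin] with x h1 h2 h3
            rw [hwne x h3, h1, h2]
            simp
          rw [eventually_nhdsWithin_iff] at h1
          filter_upwards [h1] with x hx
          by_cases hxz : x = z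
          · subst hxz
            simp [hw]
          · exact hx hxz
      · rw [harmonicAt_congr_nhds (f₂ := v - gr c a)]
        · exact (hv.1 z ⟨hz, hzy⟩).sub (harmonicAt_gr ha' (hmem hz) hzy)
        · filter_upwards [isOpen_ne.mem_nhds hzy] with x hx
          rw [hwne x hx]
          rfl
    have hmain := min_principle w c hwh (by
      intro ε hε
      set m : ℝ := (1 - ‖a - c‖) / 2 with hm
      have hmpos : 0 < m := by rw [hm]; linarith
      refine ⟨max ((1 + ‖a - c‖) / 2) (1 - ε * m ^ 2), ?_, ?_⟩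
      · apply max_lt
        · linarith
        · have : 0 < ε * m ^ 2 := by positivity
          linarith
      · intro z hc hz1
        have hc1 : (1 + ‖a - c‖) / 2 < ‖z - c‖ := lt_of_le_of_lt (le_max_left _ _) hc
        have hc2 : 1 - ε * m ^ 2 < ‖z - c‖ := lt_of_le_of_lt (le_max_right _ _) hc
        have hzy : z ≠ a := by
          rintro rfl
          linarith
        have h1 := gr_le ha' hz1 hc1.le
        have h2 : (1 - ‖z - c‖) / ((1 - ‖a - c‖) / 2) ^ 2 ≤ ε := by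
          rw [div_le_iff₀ (by positivity), ← hm]
          linarith
        have hzb : z ∈ ball c 1 := by rw [mem_ball, dist_eq_norm]; exact hz1
        have h3 := hv.2 z ⟨hzb, hzy⟩
        rw [hwne z hzy]
        linarith)
    intro z hz
    have h1 := hmain z hz.1
    rw [hwne z hz.2] at h1
    linarith

theorem green_unique {D : Set ℂ} {a : ℂ} {g g' : ℂ → ℝ} (h : IsGreenFn D a g)
    (h' : IsGreenFn D a g') {z : ℂ} (hz : z ∈ D \ {a}) : g z = g' z :=
  le_antisymm (h.2.2 g' h'.1 h'.2.1 z hz) (h'.2.2 g h.1 h.2.1 z hz)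

/-! ### The circular symmetrisation of the disc -/

theorem cos_lt_iff {α θ : ℝ} (hα0 : 0 ≤ α) (hαpi : α ≤ Real.pi) (hθ : |θ| ≤ Real.pi) :
    Real.cos θ < Real.cos α ↔ α < |θ| := by
  rw [← Real.cos_abs θ]
  constructor
  · intro h
    by_contra hcon
    push Not at hcon
    exact absurd h (not_lt.mpr (Real.cos_le_cos_of_nonneg_of_le_pi (abs_nonneg θ) hαpi hcon))
  · intro h
    exact Real.cos_lt_cos_of_nonneg_of_le_pi hα0 hθ h

theorem volume_cos {α : ℝ} (hα0 : 0 ≤ α) (hαpi : α ≤ Real.pi) :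
    (volume {θ : ℝ | θ ∈ Ioc (-Real.pi) Real.pi ∧ Real.cos θ < Real.cos α}).toReal =
      2 * (Real.pi - α) := by
  have hset : {θ : ℝ | θ ∈ Ioc (-Real.pi) Real.pi ∧ Real.cos θ < Real.cos α} =
      Ioo (-Real.pi) (-α) ∪ Ioc α Real.pi := by
    ext θ
    simp only [mem_ofPred_eq, mem_union, mem_Ioo, mem_Ioc]
    constructor
    · rintro ⟨⟨h1, h2⟩, h3⟩
      rw [cos_lt_iff hα0 hαpi (abs_le.mpr ⟨h1.le, h2⟩), lt_abs] at h3
      rcases h3 with h3 | h3
      · exact Or.inr ⟨h3, h2⟩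
      · exact Or.inl ⟨h1, by linarith⟩
    · rintro (⟨h1, h2⟩ | ⟨h1, h2⟩)
      · have h3 : θ ≤ Real.pi := by linarith
        refine ⟨⟨h1, h3⟩, ?_⟩
        rw [cos_lt_iff hα0 hαpi (abs_le.mpr ⟨h1.le, h3⟩), lt_abs]
        right; linarith
      · have h3 : -Real.pi < θ := by linarith [Real.pi_pos]
        refine ⟨⟨h3, h2⟩, ?_⟩
        rw [cos_lt_iff hα0 hαpi (abs_le.mpr ⟨h3.le, h2⟩), lt_abs]
        left; exact h1
  rw [hset, measure_union _ measurableSet_Ioc, Real.volume_Ioo, Real.volume_Ioc,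
    ENNReal.toReal_add ENNReal.ofReal_ne_top ENNReal.ofReal_ne_top,
    ENNReal.toReal_ofReal (by linarith), ENNReal.toReal_ofReal (by linarith)]
  · ring
  · rw [Set.disjoint_left]
    rintro x ⟨_, h2⟩ ⟨h3, _⟩
    linarith

theorem norm_sq_polar (r c θ : ℝ) :
    ‖(r : ℂ) * Complex.exp ((θ : ℂ) * Complex.I) - (c : ℂ)‖ ^ 2 =
      r ^ 2 - 2 * r * c * Real.cos θ + c ^ 2 := by
  rw [Complex.sq_norm, Complex.normSq_apply, Complex.exp_mul_I]
  simp only [Complex.sub_re, Complex.mul_re, Complex.ofReal_re, Complex.add_re,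
    Complex.ofReal_im, zero_mul, sub_zero, Complex.sub_im, Complex.mul_im, Complex.add_im,
    ← Complex.ofReal_cos, ← Complex.ofReal_sin, Complex.I_re, Complex.I_im, mul_zero, mul_one,
    zero_add, add_zero]
  nlinarith [Real.sin_sq_add_cos_sq θ]

/-- the disc -/
def DD : Set ℂ := ball (((-1 / 2 : ℝ) : ℂ)) 1

/-- the symmetrised disc -/
def DS : Set ℂ := ball (((1 / 2 : ℝ) : ℂ)) 1

theorem mem_DD_polar {r θ : ℝ} :
    (r : ℂ) * Complex.exp ((θ : ℂ) * Complex.I) ∈ DD ↔ r * Real.cos θ < 3 / 4 - r ^ 2 := by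
  rw [DD, mem_ball, dist_eq_norm]
  have h := norm_sq_polar r (-1 / 2) θ
  constructor
  · intro h1
    have h2 : ‖(r : ℂ) * Complex.exp ((θ : ℂ) * Complex.I) - ((-1 / 2 : ℝ) : ℂ)‖ ^ 2 < 1 := by
      have := norm_nonneg ((r : ℂ) * Complex.exp ((θ : ℂ) * Complex.I) - ((-1 / 2 : ℝ) : ℂ))
      nlinarith
    rw [h] at h2
    nlinarith
  · intro h1
    have h2 : ‖(r : ℂ) * Complex.exp ((θ : ℂ) * Complex.I) - ((-1 / 2 : ℝ) : ℂ)‖ ^ 2 < 1 ^ 2 := by
      rw [h]
      nlinarith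
    exact lt_of_pow_lt_pow_left₀ 2 (by norm_num) h2

theorem mem_DS_polar {r θ : ℝ} :
    (r : ℂ) * Complex.exp ((θ : ℂ) * Complex.I) ∈ DS ↔ r ^ 2 - 3 / 4 < r * Real.cos θ := by
  rw [DS, mem_ball, dist_eq_norm]
  have h := norm_sq_polar r (1 / 2) θ
  constructor
  · intro h1
    have h2 : ‖(r : ℂ) * Complex.exp ((θ : ℂ) * Complex.I) - ((1 / 2 : ℝ) : ℂ)‖ ^ 2 < 1 := by
      have := norm_nonneg ((r : ℂ) * Complex.exp ((θ : ℂ) * Complex.I) - ((1 / 2 : ℝ) : ℂ))
      nlinarith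
    rw [h] at h2
    nlinarith
  · intro h1
    have h2 : ‖(r : ℂ) * Complex.exp ((θ : ℂ) * Complex.I) - ((1 / 2 : ℝ) : ℂ)‖ ^ 2 < 1 ^ 2 := by
      rw [h]
      nlinarith
    exact lt_of_pow_lt_pow_left₀ 2 (by norm_num) h2

theorem sphere_subset_iff {E : Set ℂ} {r : ℝ} (hr : 0 < r) :
    sphere (0 : ℂ) r ⊆ E ↔ ∀ θ : ℝ, (r : ℂ) * Complex.exp ((θ : ℂ) * Complex.I) ∈ E := by
  constructor
  · intro h θ
    apply h
    rw [mem_sphere, dist_zero_right, norm_mul, Complex.norm_exp_ofReal_mul_I, Complex.norm_real,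
      Real.norm_eq_abs, abs_of_pos hr, mul_one]
  · intro h z hz
    rw [mem_sphere, dist_zero_right] at hz
    have := h (Complex.arg z)
    rw [← hz, Complex.norm_mul_exp_arg_mul_I] at this
    exact this

theorem sphere_inter_iff {E : Set ℂ} {r : ℝ} (hr : 0 < r) :
    (sphere (0 : ℂ) r ∩ E).Nonempty ↔
      ∃ θ : ℝ, (r : ℂ) * Complex.exp ((θ : ℂ) * Complex.I) ∈ E := by
  constructor
  · rintro ⟨z, hz, hzE⟩
    rw [mem_sphere, dist_zero_right] at hz
    refine ⟨Complex.arg z, ?_⟩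
    rw [← hz, Complex.norm_mul_exp_arg_mul_I]
    exact hzE
  · rintro ⟨θ, hθ⟩
    refine ⟨_, ?_, hθ⟩
    rw [mem_sphere, dist_zero_right, norm_mul, Complex.norm_exp_ofReal_mul_I, Complex.norm_real,
      Real.norm_eq_abs, abs_of_pos hr, mul_one]

theorem zero_mem_DD : (0 : ℂ) ∈ DD := by
  rw [DD, mem_ball, dist_eq_norm, zero_sub, norm_neg, Complex.norm_real]
  norm_num

theorem zero_mem_DS : (0 : ℂ) ∈ DS := by
  rw [DS, mem_ball, dist_eq_norm, zero_sub, norm_neg, Complex.norm_real]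
  norm_num

/-- The circular symmetrisation of the disc `|z + 1/2| < 1` is the disc `|z - 1/2| < 1`. -/
theorem circSymm_DD : circSymm DD = DS := by
  ext z
  by_cases hz0 : z = 0
  · subst hz0
    simp only [circSymm, mem_ofPred_eq, ne_eq, not_true_eq_false, false_and, or_false, true_and]
    exact iff_of_true zero_mem_DD zero_mem_DS
  have hr : 0 < ‖z‖ := norm_pos_iff.mpr hz0
  set r := ‖z‖ with hrdef
  have hpol : z = (r : ℂ) * Complex.exp ((Complex.arg z : ℂ) * Complex.I) :=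
    (Complex.norm_mul_exp_arg_mul_I z).symm
  have hDS : z ∈ DS ↔ r ^ 2 - 3 / 4 < r * Real.cos (Complex.arg z) := by
    conv_lhs => rw [hpol]
    exact mem_DS_polar
  rw [hDS]
  simp only [circSymm, mem_ofPred_eq, hz0, false_and, false_or, ne_eq, not_false_eq_true,
    true_and]
  rw [← hrdef, sphere_subset_iff hr, sphere_inter_iff hr]
  simp only [mem_DD_polar]
  have hc1 := Real.neg_one_le_cos (Complex.arg z)
  have hc2 := Real.cos_le_one (Complex.arg z)
  rcases lt_or_ge r (1 / 2) with hr1 | hr1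
  · -- the whole circle
    have hall : ∀ θ : ℝ, r * Real.cos θ < 3 / 4 - r ^ 2 := by
      intro θ
      have := Real.cos_le_one θ
      nlinarith
    refine iff_of_true (Or.inl hall) ?_
    nlinarith
  · have hnall : ¬ ∀ θ : ℝ, r * Real.cos θ < 3 / 4 - r ^ 2 := by
      intro h
      have := h 0
      rw [Real.cos_zero] at this
      nlinarith
    rcases lt_or_ge r (3 / 2) with hr2 | hr2
    · -- an arc
      have hex : ∃ θ : ℝ, r * Real.cos θ < 3 / 4 - r ^ 2 := by
        refine ⟨Real.pi, ?_⟩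
        rw [Real.cos_pi]
        nlinarith
      set q : ℝ := (3 / 4 - r ^ 2) / r with hq
      have hq1 : q ≤ 1 := by
        rw [hq, div_le_one hr]
        nlinarith
      have hq2 : -1 ≤ q := by
        rw [hq, le_div_iff₀ hr]
        nlinarith
      have hcosq : Real.cos (Real.arccos q) = q := Real.cos_arccos hq2 hq1
      have hiff : ∀ θ : ℝ, r * Real.cos θ < 3 / 4 - r ^ 2 ↔ Real.cos θ < Real.cos (Real.arccos q) := by
        intro θ
        rw [hcosq, hq, lt_div_iff₀ hr, mul_comm]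
      have hang : angularLength DD r = 2 * (Real.pi - Real.arccos q) := by
        rw [angularLength, ← volume_cos (Real.arccos_nonneg q) (Real.arccos_le_pi q)]
        congr 2
        ext θ
        simp only [mem_ofPred_eq, mem_DD_polar, hiff]
      have harg : |Complex.arg z| ≤ Real.pi := Complex.abs_arg_le_pi z
      have hfin : |Complex.arg z| < Real.pi - Real.arccos q ↔
          r ^ 2 - 3 / 4 < r * Real.cos (Complex.arg z) := by
        have h1 : Real.cos (Real.pi - Real.arccos q) = -q := by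
          rw [Real.cos_pi_sub, hcosq]
        have h2 : |Complex.arg z| < Real.pi - Real.arccos q ↔
            Real.cos (Real.pi - Real.arccos q) < Real.cos (Complex.arg z) := by
          rw [← Real.cos_abs (Complex.arg z)]
          constructor
          · intro h
            exact Real.cos_lt_cos_of_nonneg_of_le_pi (abs_nonneg _)
              (by linarith [Real.arccos_nonneg q]) h
          · intro h
            by_contra hcon
            push Not at hcon
            exact absurd h (not_lt.mpr (Real.cos_le_cos_of_nonneg_of_le_pi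
              (by linarith [Real.arccos_le_pi q]) harg hcon))
        rw [h2, h1, hq, ← neg_div, div_lt_iff₀ hr]
        constructor <;> intro h <;> nlinarith
      rw [hang]
      constructor
      · rintro (h | ⟨-, -, h⟩)
        · exact absurd h hnall
        · exact hfin.mp (by linarith)
      · intro h
        exact Or.inr ⟨hnall, hex, by linarith [hfin.mpr h]⟩
    · -- empty
      have hnex : ¬ ∃ θ : ℝ, r * Real.cos θ < 3 / 4 - r ^ 2 := by
        rintro ⟨θ, hθ⟩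
        have := Real.neg_one_le_cos θ
        nlinarith
      refine iff_of_false ?_ ?_
      · rintro (h | ⟨-, h, -⟩)
        · exact hnall h
        · exact hnex h
      · intro h
        nlinarith

/-! ### The main result -/

/-- For the disc `D = {|z + 1/2| < 1}`, whose circular symmetrisation is the disc
`D^* = {|z - 1/2| < 1}`, and the pole `1/4`, the point `-3/8` belongs to `(D_lam)^*` but not to
`(D^*)_lam` when `lam = log (13/10)`. -/
theorem result : ∃ (D : Set ℂ) (a : ℝ), D = ball (-1 / 2 : ℂ) 1 ∧ circSymm D = ball (1 / 2 : ℂ) 1 ∧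
    0 < a ∧ (a : ℂ) ∈ D ∧ (∃ g, IsGreenFn D a g) ∧ (∃ gs, IsGreenFn (circSymm D) a gs) ∧
    ∀ g gs, IsGreenFn D a g → IsGreenFn (circSymm D) a gs →
      ∃ lam : ℝ, 0 < lam ∧
        ∃ z, z ∈ circSymm (levelSet D a g lam) ∧ z ∉ levelSet (circSymm D) a gs lam := by
  have e1 : DD = ball (-1 / 2 : ℂ) 1 := by
    rw [DD]; congr 1; push_cast; ring
  have e2 : DS = ball (1 / 2 : ℂ) 1 := by
    rw [DS]; congr 1; push_cast; ring
  have haD : (((1 / 4 : ℝ)) : ℂ) ∈ DD := by
    rw [DD, mem_ball, dist_eq_norm, ← Complex.ofReal_sub, Complex.norm_real]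
    norm_num [Real.norm_eq_abs, abs_of_pos]
  have haS : (((1 / 4 : ℝ)) : ℂ) ∈ DS := by
    rw [DS, mem_ball, dist_eq_norm, ← Complex.ofReal_sub, Complex.norm_real]
    norm_num [Real.norm_eq_abs, abs_lt]
  refine ⟨DD, 1 / 4, e1, by rw [circSymm_DD, e2], by norm_num, haD, ⟨_, isGreenFn_gr haD⟩,
    ⟨gr (((1 / 2 : ℝ)) : ℂ) (((1 / 4 : ℝ)) : ℂ), by rw [circSymm_DD]; exact isGreenFn_gr haS⟩, ?_⟩
  intro g gs hg hgs
  rw [circSymm_DD] at hgs ⊢
  refine ⟨Real.log (13 / 10), Real.log_pos (by norm_num), ((-3 / 8 : ℝ) : ℂ), ?_, ?_⟩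
  · -- the whole circle
    have hnorm : ‖((-3 / 8 : ℝ) : ℂ)‖ = 3 / 8 := by
      rw [Complex.norm_real, Real.norm_eq_abs]
      norm_num [abs_of_neg]
    refine Or.inr (Or.inl ⟨?_, ?_⟩)
    · intro h
      rw [h, norm_zero] at hnorm
      norm_num at hnorm
    · rw [hnorm, sphere_subset_iff (by norm_num)]
      intro θ
      set z : ℂ := ((3 / 8 : ℝ) : ℂ) * Complex.exp ((θ : ℂ) * Complex.I) with hz
      have hc1 := Real.neg_one_le_cos θ
      have hc2 := Real.cos_le_one θ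
      have hzD : z ∈ DD := by
        rw [hz, mem_DD_polar]
        nlinarith
      have hza : z ≠ ((1 / 4 : ℝ) : ℂ) := by
        intro h
        have h1 : ‖z‖ = 3 / 8 := by
          rw [hz, norm_mul, Complex.norm_exp_ofReal_mul_I, Complex.norm_real, Real.norm_eq_abs]
          norm_num [abs_of_pos]
        rw [h, Complex.norm_real, Real.norm_eq_abs] at h1
        norm_num [abs_of_pos] at h1
      refine ⟨hzD, Or.inr ?_⟩
      rw [green_unique hg (isGreenFn_gr haD) ⟨hzD, hza⟩, gr_half_log hza]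
      have n1 : ‖((1 / 4 : ℝ) : ℂ) - ((-1 / 2 : ℝ) : ℂ)‖ = 3 / 4 := by
        rw [← Complex.ofReal_sub, Complex.norm_real, Real.norm_eq_abs]
        norm_num [abs_of_pos]
      have n2 := norm_sq_polar (3 / 8) (-1 / 2) θ
      have n3 := norm_sq_polar (3 / 8) (1 / 4) θ
      rw [← hz] at n2 n3
      rw [n1, n2, n3]
      have hden : (0 : ℝ) < (3 / 8) ^ 2 - 2 * (3 / 8) * (1 / 4) * Real.cos θ + (1 / 4) ^ 2 := by
        nlinarith
      have hkey : (13 / 10 : ℝ) ^ 2 < 1 + (1 - (3 / 4) ^ 2) *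
          (1 - ((3 / 8) ^ 2 - 2 * (3 / 8) * (-1 / 2) * Real.cos θ + (-1 / 2) ^ 2)) /
          ((3 / 8) ^ 2 - 2 * (3 / 8) * (1 / 4) * Real.cos θ + (1 / 4) ^ 2) := by
        rw [← sub_lt_iff_lt_add', lt_div_iff₀ hden]
        nlinarith
      have h2 : 2 * Real.log (13 / 10) = Real.log ((13 / 10 : ℝ) ^ 2) := by
        rw [Real.log_pow]; push_cast; ring
      have h3 := Real.log_lt_log (by norm_num) hkey
      linarith
  · rintro ⟨hzD, h | h⟩
    · rw [Complex.ofReal_inj] at h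
      norm_num at h
    · have hza : ((-3 / 8 : ℝ) : ℂ) ≠ ((1 / 4 : ℝ) : ℂ) := by
        intro h
        rw [Complex.ofReal_inj] at h
        norm_num at h
      rw [green_unique hgs (isGreenFn_gr haS) ⟨hzD, hza⟩, gr_half_log hza,
        ← Complex.ofReal_sub, ← Complex.ofReal_sub, ← Complex.ofReal_sub, Complex.norm_real,
        Complex.norm_real, Complex.norm_real, Real.norm_eq_abs, Real.norm_eq_abs,
        Real.norm_eq_abs, sq_abs, sq_abs, sq_abs] at h
      have h2 : 2 * Real.log (13 / 10) = Real.log ((13 / 10 : ℝ) ^ 2) := by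
        rw [Real.log_pow]; push_cast; ring
      have h4 : Real.log (1 + (1 - ((1 / 4 : ℝ) - 1 / 2) ^ 2) * (1 - ((-3 / 8 : ℝ) - 1 / 2) ^ 2) /
          ((-3 / 8 : ℝ) - 1 / 4) ^ 2) < Real.log ((13 / 10 : ℝ) ^ 2) := by
        apply Real.log_lt_log
        · norm_num
        · norm_num
      linarith

end Pool.Agent.Results.MP_d9eea5_an.DiscCounterexample
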